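import Pool.Agent.J4H69.K2.Stm
import Pool.Agent.J4H21.K1.Left

set_option autoImplicit false

/-!
Project K2 of helper69 (`MP_26ad15_nt`), job LEFT2: the reciprocal Gamma function near the nonpositive integers.
-/

namespace Pool.Agent.J4H57.K2

open Complex Filter Topology MeasureTheory
open Pool.Agent.J4H69.K1 Pool.Agent.J4H69.K2
open Pool.Agent.J4H21.K1.Lft

theorem sin_lower {z : ℂ} (hz : |z.re| ≤ 1 / 2) : 2 * ‖z‖ ≤ ‖Complex.sin (Real.pi * z)‖ := by
  have hpi := Real.pi_pos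
  have h1 : ‖Complex.sin (Real.pi * z)‖ ^ 2 = Real.sin (Real.pi * z.re) ^ 2 + Real.sinh (Real.pi * z.im) ^ 2 := by
    have hre : ((Real.pi : ℂ) * z).re = Real.pi * z.re := by simp
    have him : ((Real.pi : ℂ) * z).im = Real.pi * z.im := by simp
    rw [Complex.sin_eq, hre, him, ← Complex.ofReal_sin, ← Complex.ofReal_cos, ← Complex.ofReal_cosh,
      ← Complex.ofReal_sinh, ← Complex.ofReal_mul, ← Complex.ofReal_mul, ← Complex.normSq_eq_norm_sq,
      Complex.normSq_add_mul_I]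
    have e1 := Real.cosh_sq (Real.pi * z.im)
    have e2 := Real.sin_sq_add_cos_sq (Real.pi * z.re)
    rw [mul_pow, mul_pow, e1]
    nlinarith
  have h2 : (2 * z.re) ^ 2 ≤ Real.sin (Real.pi * z.re) ^ 2 := by
    have h3 : |Real.pi * z.re| ≤ Real.pi / 2 := by
      rw [abs_mul, abs_of_pos hpi]
      nlinarith
    have h4 := Real.mul_abs_le_abs_sin h3
    have h5 : 2 / Real.pi * |Real.pi * z.re| = |2 * z.re| := by
      rw [abs_mul, abs_mul, abs_of_pos hpi, abs_two]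
      field_simp
    rw [h5] at h4
    exact sq_le_sq.mpr h4
  have h3 : (2 * z.im) ^ 2 ≤ Real.sinh (Real.pi * z.im) ^ 2 := by
    have h4 : |Real.pi * z.im| ≤ |Real.sinh (Real.pi * z.im)| := by
      rw [Real.abs_sinh]
      exact Real.self_le_sinh_iff.mpr (abs_nonneg _)
    have h5 : |2 * z.im| ≤ |Real.pi * z.im| := by
      rw [abs_mul, abs_mul, abs_of_pos hpi, abs_two]
      exact mul_le_mul_of_nonneg_right (by linarith [Real.pi_gt_three]) (abs_nonneg _)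
    exact sq_le_sq.mpr (h5.trans h4)
  have h4 : ‖z‖ ^ 2 = z.re ^ 2 + z.im ^ 2 := by
    rw [← Complex.normSq_eq_norm_sq, Complex.normSq_apply]
    ring
  have h5 : (2 * ‖z‖) ^ 2 ≤ ‖Complex.sin (Real.pi * z)‖ ^ 2 := by
    rw [h1, mul_pow, h4]
    nlinarith
  exact (pow_le_pow_iff_left₀ (by positivity) (norm_nonneg _) two_ne_zero).mp h5

theorem norm_sin_add (z : ℂ) (m : ℕ) : ‖Complex.sin (z + m * Real.pi)‖ = ‖Complex.sin z‖ := by
  induction m with
  | zero => simp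
  | succ m ih =>
    have h1 : z + ((m + 1 : ℕ) : ℂ) * Real.pi = (z + m * Real.pi) + Real.pi := by
      push_cast
      ring
    rw [h1, Complex.sin_add_pi, norm_neg, ih]

theorem Gamma_near {ε : ℂ} (hε : ‖ε‖ < 1) (m : ℕ) :
    (m.factorial : ℝ) * (1 - ‖ε‖) ^ m * ‖Complex.Gamma (1 - ε)‖ ≤ ‖Complex.Gamma (1 + m - ε)‖ ∧
      ‖Complex.Gamma (1 + m - ε)‖ ≤ (m.factorial : ℝ) * (1 + ‖ε‖) ^ m * ‖Complex.Gamma (1 - ε)‖ := by
  induction m with
  | zero => simp
  | succ m ih =>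
    have h0 : (1 + m - ε : ℂ) ≠ 0 := by
      intro h
      have h1 : ε = ((1 + m : ℕ) : ℂ) := by
        push_cast
        linear_combination -h
      rw [h1, Complex.norm_natCast] at hε
      push_cast at hε
      have : (0 : ℝ) ≤ m := Nat.cast_nonneg m
      linarith
    have h1 : (1 + ((m + 1 : ℕ) : ℂ) - ε) = (1 + m - ε) + 1 := by
      push_cast
      ring
    rw [h1, Complex.Gamma_add_one _ h0, norm_mul, Nat.factorial_succ]
    have hm0 : (0 : ℝ) ≤ m := Nat.cast_nonneg m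
    have h2 : ‖((1 + m : ℕ) : ℂ)‖ = 1 + m := by
      rw [Complex.norm_natCast]
      push_cast
      rfl
    have h3 : ((m : ℝ) + 1) * (1 - ‖ε‖) ≤ ‖(1 + m - ε : ℂ)‖ := by
      have h4 := norm_sub_norm_le ((1 + m : ℕ) : ℂ) ε
      rw [h2] at h4
      push_cast at h4
      nlinarith [norm_nonneg ε]
    have h4 : ‖(1 + m - ε : ℂ)‖ ≤ ((m : ℝ) + 1) * (1 + ‖ε‖) := by
      have h4 := norm_sub_le ((1 + m : ℕ) : ℂ) ε
      rw [h2] at h4
      push_cast at h4
      nlinarith [norm_nonneg ε]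
    have h5 : 0 ≤ 1 - ‖ε‖ := by linarith
    obtain ⟨ih1, ih2⟩ := ih
    constructor
    · calc (((m + 1) * m.factorial : ℕ) : ℝ) * (1 - ‖ε‖) ^ (m + 1) * ‖Complex.Gamma (1 - ε)‖
          = (((m : ℝ) + 1) * (1 - ‖ε‖)) * ((m.factorial : ℝ) * (1 - ‖ε‖) ^ m * ‖Complex.Gamma (1 - ε)‖) := by
            push_cast
            ring
        _ ≤ _ := mul_le_mul h3 ih1 (by positivity) (norm_nonneg _)
    · calc ‖(1 + m - ε : ℂ)‖ * ‖Complex.Gamma (1 + m - ε)‖
          ≤ (((m : ℝ) + 1) * (1 + ‖ε‖)) * ((m.factorial : ℝ) * (1 + ‖ε‖) ^ m * ‖Complex.Gamma (1 - ε)‖) :=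
            mul_le_mul h4 ih2 (norm_nonneg _) (by positivity)
        _ = _ := by
            push_cast
            ring

theorem Gamma_one_near : ∃ δ : ℝ, 0 < δ ∧ ∀ ε : ℂ, ‖ε‖ ≤ δ →
    95 / 100 ≤ ‖Complex.Gamma (1 - ε)‖ ∧ ‖Complex.Gamma (1 - ε)‖ ≤ 105 / 100 := by
  have h1 : ContinuousAt (fun ε : ℂ => ‖Complex.Gamma (1 - ε)‖) 0 := by
    have h2 : ContinuousAt Complex.Gamma ((fun ε : ℂ => 1 - ε) 0) := by
      apply DifferentiableAt.continuousAt (𝕜 := ℂ)
      apply Complex.differentiableAt_Gamma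
      intro m h
      have h3 := congrArg Complex.re h
      simp only [sub_zero, one_re, neg_re, natCast_re] at h3
      have : (0 : ℝ) ≤ m := Nat.cast_nonneg m
      linarith
    exact (ContinuousAt.comp h2 (by fun_prop : ContinuousAt (fun ε : ℂ => 1 - ε) 0)).norm
  rw [Metric.continuousAt_iff] at h1
  obtain ⟨δ, hδ, h⟩ := h1 (5 / 100) (by norm_num)
  refine ⟨δ / 2, by positivity, fun ε hε => ?_⟩
  have h2 := @h ε (by rw [dist_zero_right]; linarith)
  simp only [sub_zero, Complex.Gamma_one, norm_one] at h2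
  rw [Real.dist_eq, abs_lt] at h2
  constructor <;> linarith [h2.1, h2.2]

theorem t_LEFT2 : S_LEFT2 := by
  intro c N
  obtain ⟨δ, hδ, hΓ⟩ := Gamma_one_near
  obtain ⟨R₁, hR₁⟩ := growth (N + c + 3)
  obtain ⟨C, hC0, hC⟩ := psi_bound
  refine ⟨max R₁ (20 + (C + 1) + 2 / δ), fun x hR harg hrg => ?_⟩
  have hre : x.re ≤ -(7 / 10) * ‖x‖ := by
    have e := Complex.norm_mul_cos_arg x
    rw [← Real.cos_abs] at e
    have h1 : Real.cos |arg x| ≤ Real.cos (3 * Real.pi / 4) :=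
      Real.cos_le_cos_of_nonneg_of_le_pi (by positivity) (abs_arg_le_pi x) harg.le
    have h2 : Real.cos (3 * Real.pi / 4) = -(√2 / 2) := by
      rw [show 3 * Real.pi / 4 = Real.pi - Real.pi / 4 by ring, Real.cos_pi_sub,
        Real.cos_pi_div_four]
    have h3 : 7 / 5 ≤ √2 := Real.le_sqrt_of_sq_le (by norm_num)
    have h4 : Real.cos |arg x| ≤ -(7 / 10) := by linarith
    have := mul_le_mul_of_nonneg_left h4 (norm_nonneg x)
    linarith
  obtain ⟨r, hr⟩ : ∃ r : ℝ, r = ‖x‖ := ⟨_, rfl⟩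
  have hG := hR₁ x ((le_max_left _ _).trans hR) hre
  have hr8 : 20 + (C + 1) + 2 / δ ≤ r := by rw [hr]; exact (le_max_right _ _).trans hR
  rw [← hr] at hG hrg hre ⊢
  have hδ' : 0 < 2 / δ := by positivity
  have hr20 : 20 ≤ r := by linarith
  have hr0 : 0 < r := by linarith
  have hx1 : x.re < 1 := by linarith
  obtain ⟨G, hGdef⟩ : ∃ G : ℝ, G = ‖Complex.Gamma (1 - x)‖ := ⟨_, rfl⟩
  rw [← hGdef] at hG
  have hrc : 0 < r ^ c := by positivity
  have hA : 1 ≤ r ^ N := one_le_pow₀ (by linarith)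
  -- the sine is small
  obtain ⟨s, hs⟩ : ∃ s : ℝ, s = ‖Complex.sin (Real.pi * x)‖ := ⟨_, rfl⟩
  have hs0 : 0 ≤ s := by rw [hs]; exact norm_nonneg _
  have hsin : s * (r ^ N * r ^ 3) ≤ 4 := by
    have h1 := rg_eq hx1
    have h2 := congrArg norm h1
    rw [norm_div, norm_mul, ← hGdef, Complex.norm_real, Real.norm_eq_abs,
      abs_of_pos Real.pi_pos, eq_div_iff Real.pi_ne_zero, ← hs] at h2
    have h3 : (s * (r ^ N * r ^ 3)) * r ^ c ≤ 4 * r ^ c := by
      calc (s * (r ^ N * r ^ 3)) * r ^ c = s * r ^ (N + c + 3) := by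
            rw [pow_add, pow_add]
            ring
        _ ≤ s * G := mul_le_mul_of_nonneg_left hG hs0
        _ = ‖rg x‖ * Real.pi := h2.symm
        _ ≤ r ^ c * 4 := mul_le_mul hrg Real.pi_le_four Real.pi_pos.le (by positivity)
        _ = 4 * r ^ c := by ring
    exact le_of_mul_le_mul_right h3 hrc
  have hr3 : 8000 ≤ r ^ 3 := by
    calc (8000 : ℝ) = 20 ^ 3 := by norm_num
      _ ≤ r ^ 3 := pow_le_pow_left₀ (by norm_num) hr20 3
  have hs3 : s * r ^ 3 ≤ 4 := by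
    refine le_trans ?_ hsin
    refine mul_le_mul_of_nonneg_left ?_ hs0
    exact le_mul_of_one_le_left (by positivity) hA
  have hs1 : s ≤ 1 / 10 := by
    by_contra h
    push Not at h
    nlinarith
  have hcos1 : 9 / 10 ≤ ‖Complex.cos (Real.pi * x)‖ ∧ ‖Complex.cos (Real.pi * x)‖ ≤ 11 / 10 := by
    have h1 := Complex.sin_sq_add_cos_sq (Real.pi * x)
    have h2 : Complex.cos (Real.pi * x) ^ 2 = 1 - Complex.sin (Real.pi * x) ^ 2 := by
      linear_combination h1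
    have h3 := congrArg norm h2
    rw [norm_pow] at h3
    have h4 := norm_sub_norm_le (1 : ℂ) (Complex.sin (Real.pi * x) ^ 2)
    have h5 := norm_sub_le (1 : ℂ) (Complex.sin (Real.pi * x) ^ 2)
    rw [norm_one, norm_pow, ← hs] at h4 h5
    rw [← h3] at h4 h5
    have h6 := norm_nonneg (Complex.cos (Real.pi * x))
    have h7 : s ^ 2 ≤ 1 / 100 := by nlinarith
    constructor
    · by_contra h
      push Not at h
      nlinarith
    · by_contra h
      push Not at h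
      nlinarith
  -- the integer
  obtain ⟨k, hk⟩ : ∃ k : ℤ, k = round x.re := ⟨_, rfl⟩
  have hkr : |x.re - k| ≤ 1 / 2 := by rw [hk]; exact abs_sub_round _
  have hk0 : k ≤ 0 := by
    have h1 : (k : ℝ) < 1 := by
      rw [abs_le] at hkr
      linarith [hkr.1]
    have h2 : k < 1 := by exact_mod_cast h1
    omega
  obtain ⟨m, hm⟩ : ∃ m : ℕ, (m : ℤ) = -k := ⟨(-k).toNat, Int.toNat_of_nonneg (by omega)⟩
  have hmk : (m : ℝ) = -(k : ℝ) := by exact_mod_cast hm
  obtain ⟨ε, hε⟩ : ∃ ε : ℂ, ε = x + m := ⟨_, rfl⟩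
  have hεre : |ε.re| ≤ 1 / 2 := by
    rw [hε, add_re, natCast_re, hmk]
    exact hkr
  have hsε : ‖Complex.sin (Real.pi * ε)‖ = s := by
    have h1 : (Real.pi : ℂ) * ε = Real.pi * x + m * Real.pi := by
      rw [hε]
      ring
    rw [h1, norm_sin_add, hs]
  have hεs : 2 * ‖ε‖ ≤ s := by
    rw [← hsε]
    exact sin_lower hεre
  have hε0 := norm_nonneg ε
  have hε3 : ‖ε‖ * r ^ 3 ≤ 2 := by nlinarith
  have hmr : (m : ℝ) ≤ 2 * r := by
    have h1 := abs_re_le_norm x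
    rw [← hr, abs_le] at h1
    rw [abs_le] at hkr
    rw [hmk]
    linarith [h1.1, hkr.1, hkr.2]
  have hεr : ‖ε‖ * r ≤ 1 / 200 := by
    have h1 : ‖ε‖ * r * r ^ 2 ≤ 2 := by
      calc ‖ε‖ * r * r ^ 2 = ‖ε‖ * r ^ 3 := by ring
        _ ≤ 2 := hε3
    have h2 : 400 ≤ r ^ 2 := by nlinarith
    have h3 : 0 ≤ ‖ε‖ * r := by positivity
    nlinarith
  have hmε : (m : ℝ) * ‖ε‖ ≤ 1 / 100 := by nlinarith
  have hε1 : ‖ε‖ < 1 := by nlinarith
  have hεδ : ‖ε‖ ≤ δ := by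
    have h1 : ‖ε‖ * r ≤ 2 := by linarith
    have h2 : 2 / δ ≤ r := by linarith
    rw [div_le_iff₀ hδ] at h2
    by_contra h
    push Not at h
    nlinarith
  obtain ⟨g1, g2⟩ := hΓ ε hεδ
  obtain ⟨n1, n2⟩ := Gamma_near hε1 m
  have hxe : (1 + m - ε : ℂ) = 1 - x := by
    rw [hε]
    ring
  rw [hxe, ← hGdef] at n1 n2
  have hf : (0 : ℝ) < m.factorial := by positivity
  have p1 : 99 / 100 ≤ (1 - ‖ε‖) ^ m := by
    have h1 := one_add_mul_le_pow (a := -‖ε‖) (by linarith) m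
    have h2 : (1 + -‖ε‖) = 1 - ‖ε‖ := by ring
    rw [h2] at h1
    linarith
  have p2 : (1 + ‖ε‖) ^ m ≤ 102 / 100 := by
    have h1 : (1 + ‖ε‖) ^ m ≤ Real.exp ‖ε‖ ^ m :=
      pow_le_pow_left₀ (by positivity) (by linarith [Real.add_one_le_exp ‖ε‖]) m
    rw [← Real.exp_nat_mul] at h1
    have h2 : Real.exp (m * ‖ε‖) ≤ 1 + m * ‖ε‖ + (m * ‖ε‖) ^ 2 := by
      have h3 := Real.abs_exp_sub_one_sub_id_le (x := m * ‖ε‖) (by
        rw [abs_of_nonneg (by positivity)]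
        linarith)
      rw [abs_le] at h3
      linarith [h3.2]
    have h3 : 0 ≤ (m : ℝ) * ‖ε‖ := by positivity
    nlinarith
  have q1 : 94 / 100 * (m.factorial : ℝ) ≤ G := by
    refine le_trans ?_ n1
    have h1 : 94 / 100 ≤ (1 - ‖ε‖) ^ m * ‖Complex.Gamma (1 - ε)‖ := by nlinarith
    calc 94 / 100 * (m.factorial : ℝ) ≤ ((1 - ‖ε‖) ^ m * ‖Complex.Gamma (1 - ε)‖) * m.factorial :=
          mul_le_mul_of_nonneg_right h1 hf.le
      _ = _ := by ring
  have q2 : G ≤ 108 / 100 * (m.factorial : ℝ) := by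
    refine n2.trans ?_
    have h0 : 0 ≤ ‖Complex.Gamma (1 - ε)‖ := norm_nonneg _
    have h1 : (1 + ‖ε‖) ^ m * ‖Complex.Gamma (1 - ε)‖ ≤ 108 / 100 := by
      calc (1 + ‖ε‖) ^ m * ‖Complex.Gamma (1 - ε)‖ ≤ 102 / 100 * (105 / 100) :=
            mul_le_mul p2 g2 h0 (by norm_num)
        _ ≤ 108 / 100 := by norm_num
    calc (m.factorial : ℝ) * (1 + ‖ε‖) ^ m * ‖Complex.Gamma (1 - ε)‖
        = ((1 + ‖ε‖) ^ m * ‖Complex.Gamma (1 - ε)‖) * m.factorial := by ring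
      _ ≤ _ := mul_le_mul_of_nonneg_right h1 hf.le
  have hGpos : 0 < G := by
    have : 0 < 94 / 100 * (m.factorial : ℝ) := by positivity
    linarith
  -- the digamma function
  have hpsi : ‖logDeriv Complex.Gamma (1 - x)‖ ≤ 2 * r := by
    have h1 := hC (1 - x) (by simp only [sub_re, one_re]; linarith)
    have h2 := norm_sub_le (1 : ℂ) x
    rw [norm_one, ← hr] at h2
    linarith
  have h1 : ‖rg x * logDeriv Complex.Gamma (1 - x)‖ ≤ 1 / 10 * G := by
    rw [norm_mul]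
    have h2 : r ^ c * (2 * r) * 10 ≤ r ^ (N + c + 3) := by
      have h3 : 20 ≤ r ^ N * r ^ 2 := by
        calc (20 : ℝ) ≤ 1 * r ^ 2 := by nlinarith
          _ ≤ r ^ N * r ^ 2 := mul_le_mul_of_nonneg_right hA (by positivity)
      calc r ^ c * (2 * r) * 10 = (r ^ c * r) * 20 := by ring
        _ ≤ (r ^ c * r) * (r ^ N * r ^ 2) := mul_le_mul_of_nonneg_left h3 (by positivity)
        _ = r ^ (N + c + 3) := by
          rw [pow_add, pow_add]
          ring
    calc ‖rg x‖ * ‖logDeriv Complex.Gamma (1 - x)‖ ≤ r ^ c * (2 * r) :=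
          mul_le_mul hrg hpsi (norm_nonneg _) (by positivity)
      _ ≤ _ := by linarith
  have h2 : 9 / 10 * G ≤ ‖Complex.cos (Real.pi * x) * Complex.Gamma (1 - x)‖ := by
    rw [norm_mul, ← hGdef]
    exact mul_le_mul_of_nonneg_right hcos1.1 hGpos.le
  have h3 : ‖Complex.cos (Real.pi * x) * Complex.Gamma (1 - x)‖ ≤ 11 / 10 * G := by
    rw [norm_mul, ← hGdef]
    exact mul_le_mul_of_nonneg_right hcos1.2 hGpos.le
  have h4 := norm_sub_norm_le (Complex.cos (Real.pi * x) * Complex.Gamma (1 - x))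
    (rg x * logDeriv Complex.Gamma (1 - x))
  have h5 := norm_sub_le (Complex.cos (Real.pi * x) * Complex.Gamma (1 - x))
    (rg x * logDeriv Complex.Gamma (1 - x))
  refine ⟨m, ?_, ?_, ?_⟩
  · rw [← hε]
    have h6 : 2 * ‖ε‖ * (r ^ N * r ^ 3) ≤ 4 :=
      (mul_le_mul_of_nonneg_right hεs (by positivity)).trans hsin
    have h7 : 0 ≤ ‖ε‖ * r ^ N := by positivity
    nlinarith
  · rw [deriv_rg hx1]
    linarith
  · rw [deriv_rg hx1]
    linarith

end Pool.Agent.J4H57.K2
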